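import Pool.Agent.H5.RPG.Stmts

/-!
# Board `rpg`, row SUM: a finite sum
-/

set_option autoImplicit false

namespace Pool.RPG

open Filter TMLib Pool.PG

namespace SUM2

theorem pow_self_le (u : ℕ) : (u : ℝ) ^ u / (u.factorial : ℝ) ≤ 3 ^ u := by
  refine (Real.pow_div_factorial_le_exp (u : ℝ) (Nat.cast_nonneg u) u).trans ?_
  have h1 : Real.exp (u : ℝ) = Real.exp 1 ^ u := by
    rw [← Real.exp_nat_mul, mul_one]
  rw [h1]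
  exact pow_le_pow_left₀ (Real.exp_pos 1).le (by linarith [Real.exp_one_lt_d9]) u

theorem sum_sq (n : ℕ) : ∑ u ∈ Finset.Icc 1 n, (u : ℝ) ^ 2 * (1 / 2) ^ (u - 1) =
    12 - ((n : ℝ) ^ 2 + 4 * n + 6) * (2 * (1 / 2) ^ n) := by
  induction n with
  | zero => simp; norm_num
  | succ n ih =>
    rw [Finset.sum_Icc_succ_top (by omega), ih]
    have h : n + 1 - 1 = n := by omega
    rw [h]
    push_cast
    ring

theorem sum_sq_le (n : ℕ) : ∑ u ∈ Finset.Icc 1 n, (u : ℝ) ^ 2 * (1 / 2) ^ (u - 1) ≤ 12 := by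
  rw [sum_sq]
  have : (0 : ℝ) ≤ ((n : ℝ) ^ 2 + 4 * n + 6) * (2 * (1 / 2) ^ n) := by positivity
  linarith

theorem term (k v c r : ℕ) (ρ : ℝ) (hρ0 : 0 < ρ) (hρ1 : ρ ≤ 1)
    (hr : (r : ℝ) ≤ ρ * ((k + v + 1 : ℕ) : ℝ))
    (h6 : 6 * ((c + 2 : ℕ) : ℝ) * ρ ^ (c + 1) ≤ 1) :
    ((k + v + 1 : ℕ) : ℝ) * (((k + v + 1).choose (v + 1) : ℝ) *
      ((((k + v + 1 : ℕ) : ℝ) ^ (c + 2)) ^ k *
      (((v + 1 : ℕ) : ℝ) * (((c + 2 : ℕ) : ℝ) ^ 2 * ((v + 1 : ℕ) : ℝ) ^ 2 * (r : ℝ) ^ c) *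
        (((c + 2 : ℕ) : ℝ) * ((v + 1 : ℕ) : ℝ) * (r : ℝ) ^ (c + 1)) ^ v))) ≤
      3 * ((c + 2 : ℕ) : ℝ) ^ 2 * ((k + v + 1 : ℕ) : ℝ) ^ ((c + 2) * (k + v + 1)) *
        (((v + 1 : ℕ) : ℝ) ^ 2 * (1 / 2) ^ v) := by
  set N : ℝ := ((k + v + 1 : ℕ) : ℝ) with hN
  set u : ℝ := ((v + 1 : ℕ) : ℝ) with hu
  set D : ℝ := ((c + 2 : ℕ) : ℝ) with hD
  have hN0 : 0 ≤ N := by rw [hN]; positivity
  have hu0 : 0 ≤ u := by rw [hu]; positivity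
  have hD0 : 0 ≤ D := by rw [hD]; positivity
  have hr0 : (0 : ℝ) ≤ r := Nat.cast_nonneg r
  have hρN : 0 ≤ ρ * N := by positivity
  have h1 : ((k + v + 1).choose (v + 1) : ℝ) ≤ N ^ (v + 1) / ((v + 1).factorial : ℝ) :=
    Nat.choose_le_pow_div (v + 1) (k + v + 1)
  have h2 : (r : ℝ) ^ c ≤ (ρ * N) ^ c := pow_le_pow_left₀ hr0 hr c
  have h3 : (r : ℝ) ^ (c + 1) ≤ (ρ * N) ^ (c + 1) := pow_le_pow_left₀ hr0 hr (c + 1)
  have h4 : (D * u * (r : ℝ) ^ (c + 1)) ^ v ≤ (D * u * (ρ * N) ^ (c + 1)) ^ v :=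
    pow_le_pow_left₀ (by positivity) (mul_le_mul_of_nonneg_left h3 (by positivity)) v
  have h5 : u * (D ^ 2 * u ^ 2 * (r : ℝ) ^ c) ≤ u * (D ^ 2 * u ^ 2 * (ρ * N) ^ c) :=
    mul_le_mul_of_nonneg_left (mul_le_mul_of_nonneg_left h2 (by positivity)) hu0
  have h7 : u * (D ^ 2 * u ^ 2 * (r : ℝ) ^ c) * (D * u * (r : ℝ) ^ (c + 1)) ^ v ≤
      u * (D ^ 2 * u ^ 2 * (ρ * N) ^ c) * (D * u * (ρ * N) ^ (c + 1)) ^ v :=
    mul_le_mul h5 h4 (by positivity) (by positivity)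
  have h8 : u ^ (v + 1) / ((v + 1).factorial : ℝ) ≤ 3 ^ (v + 1) := pow_self_le (v + 1)
  have h9 : (3 * (D * ρ ^ (c + 1))) ^ v ≤ (1 / 2) ^ v :=
    pow_le_pow_left₀ (by positivity) (by linarith) v
  have h10 : ρ ^ c ≤ 1 := pow_le_one₀ hρ0.le hρ1
  calc N * (((k + v + 1).choose (v + 1) : ℝ) * ((N ^ (c + 2)) ^ k *
        (u * (D ^ 2 * u ^ 2 * (r : ℝ) ^ c) * (D * u * (r : ℝ) ^ (c + 1)) ^ v))) ≤
      N * (N ^ (v + 1) / ((v + 1).factorial : ℝ) * ((N ^ (c + 2)) ^ k *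
        (u * (D ^ 2 * u ^ 2 * (ρ * N) ^ c) * (D * u * (ρ * N) ^ (c + 1)) ^ v))) :=
        mul_le_mul_of_nonneg_left (mul_le_mul h1 (mul_le_mul_of_nonneg_left h7 (by positivity))
          (by positivity) (by positivity)) hN0
    _ = (D ^ 2 * N ^ ((c + 2) * (k + v + 1)) * u ^ 2) *
        ((u ^ (v + 1) / ((v + 1).factorial : ℝ)) * (ρ ^ c * (D * ρ ^ (c + 1)) ^ v)) := by
        have e1 : N ^ ((c + 2) * (k + v + 1)) =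
            N * N ^ (v + 1) * (N ^ (c + 2)) ^ k * N ^ c * (N ^ (c + 1)) ^ v := by
          rw [← pow_mul, ← pow_mul]
          rw [← pow_succ', ← pow_add, ← pow_add, ← pow_add]
          congr 1
          ring
        rw [e1, mul_pow ρ N c, mul_pow ρ N (c + 1), mul_pow, mul_pow, mul_pow, mul_pow]
        ring
    _ ≤ (D ^ 2 * N ^ ((c + 2) * (k + v + 1)) * u ^ 2) *
        (3 ^ (v + 1) * (1 * (D * ρ ^ (c + 1)) ^ v)) :=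
        mul_le_mul_of_nonneg_left (mul_le_mul h8 (mul_le_mul_of_nonneg_right h10 (by positivity))
          (by positivity) (by positivity)) (by positivity)
    _ = (D ^ 2 * N ^ ((c + 2) * (k + v + 1)) * u ^ 2) * (3 * (3 * (D * ρ ^ (c + 1))) ^ v) := by
        rw [mul_pow 3 (D * ρ ^ (c + 1)) v]
        ring
    _ ≤ (D ^ 2 * N ^ ((c + 2) * (k + v + 1)) * u ^ 2) * (3 * (1 / 2) ^ v) :=
        mul_le_mul_of_nonneg_left (mul_le_mul_of_nonneg_left h9 (by norm_num)) (by positivity)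
    _ = _ := by ring

end SUM2

open SUM2 in
/-- **SUM** -/
theorem sum_thm : SUMStmt := by
  intro n d r ρ hn hd hρ0 hρ1 hr h6
  obtain ⟨c, rfl⟩ : ∃ c, d = c + 2 := ⟨d - 2, by omega⟩
  rw [Finset.mul_sum]
  have h1 : ∀ u ∈ Finset.Icc 1 n, (n : ℝ) * ((n.choose u : ℝ) * (((n : ℝ) ^ (c + 2)) ^ (n - u) *
      (u * (((c + 2 : ℕ) : ℝ) ^ 2 * u ^ 2 * (r : ℝ) ^ (c + 2 - 2)) *
        (((c + 2 : ℕ) : ℝ) * u * (r : ℝ) ^ (c + 2 - 1)) ^ (u - 1)))) ≤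
      3 * ((c + 2 : ℕ) : ℝ) ^ 2 * (n : ℝ) ^ ((c + 2) * n) * ((u : ℝ) ^ 2 * (1 / 2) ^ (u - 1)) := by
    intro u hu
    rw [Finset.mem_Icc] at hu
    obtain ⟨v, rfl⟩ : ∃ v, u = v + 1 := ⟨u - 1, by omega⟩
    obtain ⟨k, rfl⟩ : ∃ k, n = k + v + 1 := ⟨n - v - 1, by omega⟩
    have e1 : k + v + 1 - (v + 1) = k := by omega
    have e2 : c + 2 - 2 = c := by omega
    have e3 : c + 2 - 1 = c + 1 := by omega
    have e4 : v + 1 - 1 = v := by omega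
    rw [e1, e2, e3, e4]
    rw [e3] at h6
    exact term k v c r ρ hρ0 hρ1 hr h6
  refine (Finset.sum_le_sum h1).trans ?_
  rw [← Finset.mul_sum]
  calc 3 * ((c + 2 : ℕ) : ℝ) ^ 2 * (n : ℝ) ^ ((c + 2) * n) *
        ∑ u ∈ Finset.Icc 1 n, (u : ℝ) ^ 2 * (1 / 2) ^ (u - 1) ≤
      3 * ((c + 2 : ℕ) : ℝ) ^ 2 * (n : ℝ) ^ ((c + 2) * n) * 12 :=
        mul_le_mul_of_nonneg_left (sum_sq_le n) (by positivity)
    _ = _ := by ring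

end Pool.RPG
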