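import Pool.Agent.H5.RPG.Stmts

/-!
# Board `rpg`, row WNU: the labels of the vertices which are left
-/

set_option autoImplicit false

namespace Pool.RPG

open Filter TMLib Pool.PG

namespace WNU2

theorem red_length (g : Game) : (red g).length = g.length := by
  unfold red
  rw [List.length_map, List.length_range]

theorem vx_red (g : Game) {v : ℕ} (hv : v < g.length) : vx (red g) v =
    ((vx g v).1, [if (U g).getD v false = true then (su g v).headD 0 else v]) := by
  have h1 : (red g)[v]? =
      some ((vx g v).1, [if (U g).getD v false = true then (su g v).headD 0 else v]) := by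
    unfold red
    rw [List.getElem?_map, List.getElem?_range hv]
    rfl
  have h2 : vx (red g) v = ((red g)[v]?).getD ((false, 0), []) := by
    unfold vx
    rw [List.getD_eq_getElem?_getD]
  rw [h2, h1]
  rfl

theorem own_red (g : Game) {v : ℕ} (hv : v < g.length) : own (red g) v = own g v := by
  unfold own
  rw [vx_red g hv]

theorem pri_red (g : Game) {v : ℕ} (hv : v < g.length) : pri (red g) v = pri g v := by
  unfold pri
  rw [vx_red g hv]

theorem suc_red (g : Game) {v : ℕ} (hv : v < g.length) : suc (red g) v =
    [if (U g).getD v false = true then (su g v).headD 0 else v] := by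
  unfold suc
  rw [vx_red g hv]

theorem nx_red (g : Game) {v : ℕ} (hv : v < g.length) (hU : (U g).getD v false = true) :
    nx (red g) v = (su g v).headD 0 := by
  unfold nx
  rw [suc_red g hv, if_pos hU]
  rfl

theorem head_mem (g : Game) {v w : ℕ} (hw : w ∈ suc g v) (hU : (U g).getD w false = true) :
    (su g v).headD 0 ∈ su g v := by
  have h1 : w ∈ su g v := by
    unfold su
    rw [List.mem_filter]
    exact ⟨hw, hU⟩
  cases hs : su g v with
  | nil =>
    rw [hs] at h1
    exact absurd h1 (List.not_mem_nil)
  | cons a l =>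
    simp

theorem mem_su (g : Game) {v w : ℕ} : w ∈ su g v ↔ w ∈ suc g v ∧ (U g).getD w false = true := by
  unfold su
  rw [List.mem_filter]

theorem good_eq {g : Game} (hg : good g = true) {v w : ℕ} (hv : v < g.length)
    (hU : (U g).getD v false = true) (hw : w ∈ su g v) : w = (su g v).headD 0 := by
  unfold good at hg
  rw [List.all_eq_true] at hg
  have h1 := hg v (List.mem_range.2 hv)
  rw [hU] at h1
  simp only [Bool.not_true, Bool.false_or] at h1
  rw [List.all_eq_true] at h1
  exact eq_of_beq (h1 w hw)

theorem won_unique {g : Game} {x : ℕ → ℕ} {i j : Bool} (h1 : WonBy g i x) (h2 : WonBy g j x) :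
    i = j := by
  obtain ⟨p, a1, a2, a3⟩ := h1
  obtain ⟨q, b1, b2, b3⟩ := h2
  have hqp : q ≤ p := by
    obtain ⟨n, hn1, hn2⟩ := (a1.and_eventually b2).exists
    rw [← hn1]
    exact hn2
  have hpq : p ≤ q := by
    obtain ⟨n, hn1, hn2⟩ := (b1.and_eventually a2).exists
    rw [← hn1]
    exact hn2
  have : p = q := le_antisymm hpq hqp
  subst this
  have h3 : i = true ↔ j = true := a3.symm.trans b3
  cases i <;> cases j <;> simp_all

end WNU2

open WNU2 in
/-- **WNU** -/
theorem wnu_thm (hWNR : WNRStmt) (hUSU : USUStmt) (hEVD : EVDStmt) (hSOL : SOLStmt) :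
    WNUStmt := by
  intro g v hg hgood hv hvU
  -- the game `red g`
  have hstep : ∀ u, u < g.length → (U g).getD u false = true →
      nx (red g) u ∈ suc g u ∧ nx (red g) u < g.length ∧
        (U g).getD (nx (red g) u) false = true := by
    intro u hu hUu
    obtain ⟨-, -, w, hw, hwU⟩ := hUSU g u hg hu hUu
    have h1 := head_mem g hw hwU
    rw [nx_red g hu hUu]
    rw [mem_su] at h1
    exact ⟨h1.1, (hg u hu).2 _ h1.1, h1.2⟩
  have hone : ∀ u < (red g).length, ∃ w, suc (red g) u = [w] := by
    intro u hu
    rw [red_length] at hu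
    exact ⟨_, suc_red g hu⟩
  have hval : Valid (red g) := by
    intro u hu
    rw [red_length] at hu
    rw [suc_red g hu, red_length]
    refine ⟨by simp, ?_⟩
    intro w hw
    rw [List.mem_singleton] at hw
    by_cases hUu : (U g).getD u false = true
    · rw [if_pos hUu] at hw
      have := (hstep u hu hUu).2.1
      rw [nx_red g hu hUu, ← hw] at this
      exact this
    · rw [if_neg hUu] at hw
      rw [hw]
      exact hu
  have hvr : v < (red g).length := by rw [red_length]; exact hv
  rw [← hEVD (red g) v hval hvr hone]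
  -- the play
  set x : ℕ → ℕ := fun n => (nx (red g))^[n] v with hx
  have hx0 : x 0 = v := rfl
  have hx1 : ∀ n, x (n + 1) = nx (red g) (x n) := fun n => by
    rw [hx]
    exact Function.iterate_succ_apply' _ _ _
  have hinv : ∀ n, x n < g.length ∧ (U g).getD (x n) false = true := by
    intro n
    induction n with
    | zero => exact ⟨hv, hvU⟩
    | succ n ih =>
      rw [hx1]
      exact (hstep _ ih.1 ih.2).2
  have hplay : Play g v x := ⟨hx0, fun n => by
    rw [hx1]
    exact (hstep _ (hinv n).1 (hinv n).2).1⟩
  have hplay' : Play (red g) v x := ⟨hx0, fun n => by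
    rw [hx1, suc_red g (hinv n).1, if_pos (hinv n).2, nx_red g (hinv n).1 (hinv n).2]
    exact List.mem_singleton.2 rfl⟩
  obtain ⟨σ', hσ'⟩ := (hSOL (red g) hval).1
  have hwon' : WonBy (red g) (win (red g) v) x := by
    refine hσ'.won v hvr x hplay' ?_
    intro n _
    have h1 := hσ'.mem (x n) (by rw [red_length]; exact (hinv n).1)
    have h2 := hplay'.2 n
    obtain ⟨w, hw⟩ := hone (x n) (by rw [red_length]; exact (hinv n).1)
    rw [hw, List.mem_singleton] at h1 h2
    rw [h1, h2]
  have hwonj : WonBy g (win (red g) v) x := by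
    obtain ⟨p, a1, a2, a3⟩ := hwon'
    refine ⟨p, a1.mono fun n hn => ?_, a2.mono fun n hn => ?_, a3⟩
    · rw [← pri_red g (hinv n).1]
      exact hn
    · rw [← pri_red g (hinv n).1]
      exact hn
  -- the solution of `g`
  obtain ⟨σ, hσ⟩ := (hSOL g hg).1
  by_contra hne
  have hnj : win (red g) v = !(win g v) := by
    cases h1 : win g v <;> cases h2 : win (red g) v <;> simp_all
  have hfol : ∀ n, win g (x n) = win g v → own g (x n) = win g v → x (n + 1) = σ (x n) := by
    intro n h1 h2
    obtain ⟨k1, k2⟩ := hinv n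
    have h3 := hσ.mem (x n) k1
    have h4 := hσ.stay (x n) k1 (by rw [h2, h1])
    obtain ⟨-, u2, -⟩ := hUSU g (x n) hg k1 k2
    rcases u2 (σ (x n)) h3 with h5 | h5
    · have h6 : σ (x n) ∈ su g (x n) := (mem_su g).2 ⟨h3, h5⟩
      rw [good_eq hgood k1 k2 h6, hx1, nx_red g k1 k2]
    · have h6 := hWNR g _ (σ (x n)) hg h5
      rw [h4, h1, h2] at h6
      exact absurd h6 (by cases win g v <;> decide)
  have hall : ∀ n, win g (x n) = win g v := by
    intro n
    induction n with
    | zero => rw [hx0]
    | succ n ih =>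
      obtain ⟨k1, k2⟩ := hinv n
      by_cases h1 : own g (x n) = win g (x n)
      · rw [hfol n ih (by rw [h1, ih]), hσ.stay (x n) k1 h1, ih]
      · rw [hσ.trap (x n) k1 h1 (x (n + 1)) (hplay.2 n), ih]
  have hwong : WonBy g (win g v) x :=
    hσ.won v hv x hplay fun n hn => hfol n (hall n) hn
  exact hne (won_unique hwong hwonj)

end Pool.RPG
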